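import Mathlib

/-!
# Cliques in the graphs of the forms `X² + bXY + Y²`

Let `F` be a finite field with `q` elements, `K` a finite extension field of `F`, `b ∈ K` nonzero
and `V` a nonzero `F`-subspace of `K` no scalar multiple `αV` of which is a subfield of `K`. Then
every clique of the graph `Γ(Q_b, V)` has at most `(1/q + 4/q²) · #V` elements.
-/

set_option autoImplicit false

open Finset

namespace Pool.Agent.Results.MP_e8cc41_co.CliqueBound

/-- The graph `Γ(Q_b, V)`: its vertex set is `K`, and distinct `x`, `y` are adjacent if and only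
if `x² + bxy + y²` lies in `V`. -/
def formGraph {F K : Type*} [Field F] [Field K] [Algebra F K] (b : K) (V : Submodule F K) :
    SimpleGraph K where
  Adj x y := x ≠ y ∧ x ^ 2 + b * x * y + y ^ 2 ∈ V
  symm := ⟨fun x y h => ⟨h.1.symm, by
    have h2 := h.2
    have e : y ^ 2 + b * y * x + x ^ 2 = x ^ 2 + b * x * y + y ^ 2 := by ring
    rw [e]; exact h2⟩⟩
  loopless := ⟨fun x h => h.1 rfl⟩

section aux

variable {F K : Type*} [Field F] [Finite F] [Field K] [Finite K] [Algebra F K]

/-- The subspace `{w : c w ∈ V}`. -/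
def pull (V : Submodule F K) (c : K) : Submodule F K := V.comap (LinearMap.mulLeft F c)

omit [Finite F] [Finite K] in
lemma mem_pull (V : Submodule F K) (c w : K) : w ∈ pull V c ↔ c * w ∈ V := Iff.rfl

omit [Finite F] [Finite K] in
lemma finrank_pull (V : Submodule F K) {c : K} (hc : c ≠ 0) :
    Module.finrank F (pull V c) = Module.finrank F V := by
  have e : pull V c ≃ₗ[F] V :=
    { toFun := fun w => ⟨c * w.1, w.2⟩
      map_add' := fun x y => by ext; simp [mul_add]
      map_smul' := fun a x => by ext; simp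
      invFun := fun v => ⟨c⁻¹ * v.1, by
        rw [mem_pull, ← mul_assoc, mul_inv_cancel₀ hc, one_mul]; exact v.2⟩
      left_inv := fun w => by ext; simp [← mul_assoc, inv_mul_cancel₀ hc]
      right_inv := fun v => by ext; simp [← mul_assoc, mul_inv_cancel₀ hc] }
  exact e.finrank_eq

/-- The elements `k` with `kV ⊆ V`. -/
def stab (V : Submodule F K) : Subring K where
  carrier := {k | ∀ v ∈ V, k * v ∈ V}
  mul_mem' := fun {a b} ha hb v hv => by rw [mul_assoc]; exact ha _ (hb _ hv)
  one_mem' := fun v hv => by simpa using hv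
  add_mem' := fun {a b} ha hb v hv => by rw [add_mul]; exact V.add_mem (ha v hv) (hb v hv)
  zero_mem' := fun v _ => by simp
  neg_mem' := fun {a} ha v hv => by rw [neg_mul]; exact V.neg_mem (ha v hv)

omit [Finite F] in
lemma stab_inv (V : Submodule F K) {k : K} (hk : k ∈ stab V) : k⁻¹ ∈ stab V := by
  rcases eq_or_ne k 0 with rfl | hk0
  · simpa using hk
  intro v hv
  have hinj : Function.Injective (fun w : V => (⟨k * w.1, hk w.1 w.2⟩ : V)) := by
    intro x y h
    have := congrArg Subtype.val h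
    exact Subtype.ext (mul_left_cancel₀ hk0 this)
  obtain ⟨w, hw⟩ := (Finite.injective_iff_surjective.1 hinj) ⟨v, hv⟩
  have h2 : k * w.1 = v := congrArg Subtype.val hw
  rw [← h2, ← mul_assoc, inv_mul_cancel₀ hk0, one_mul]
  exact w.2

/-- The same as a subfield. -/
def stabField (V : Submodule F K) : Subfield K :=
  { stab V with inv_mem' := fun _ hk => stab_inv V hk }

omit [Finite F] in
lemma stab_sq_le (V : Submodule F K) (hV : V ≠ ⊥)
    (h : ∀ (α : K) (S : Subfield K), (S : Set K) ≠ (fun v => α * v) '' (V : Set K)) :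
    Nat.card (stab V) * Nat.card (stab V) ≤ Nat.card V := by
  obtain ⟨v0, hv0, hv0'⟩ := V.ne_bot_iff.1 hV
  have hex : ∃ v1 ∈ V, v1 * v0⁻¹ ∉ stab V := by
    by_contra hcon
    push Not at hcon
    apply h v0⁻¹ (stabField V)
    ext k
    simp only [SetLike.mem_coe, Set.mem_image]
    constructor
    · intro hk
      exact ⟨k * v0, hk v0 hv0, by field_simp⟩
    · rintro ⟨v, hv, rfl⟩
      have := hcon v hv
      rw [mul_comm] at this
      exact this
  obtain ⟨v1, hv1, hv1'⟩ := hex
  rw [← Nat.card_prod]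
  refine Nat.card_le_card_of_injective
    (fun p : stab V × stab V => (⟨p.1.1 * v0 + p.2.1 * v1,
      V.add_mem (p.1.2 v0 hv0) (p.2.2 v1 hv1)⟩ : V)) ?_
  rintro ⟨⟨k, hk⟩, ⟨l, hl⟩⟩ ⟨⟨k', hk'⟩, ⟨l', hl'⟩⟩ heq
  have h1 : k * v0 + l * v1 = k' * v0 + l' * v1 := congrArg Subtype.val heq
  have hll : l = l' := by
    by_contra hne
    apply hv1'
    have h2 : v1 * v0⁻¹ = (k' - k) * (l - l')⁻¹ := by
      have hne' : l - l' ≠ 0 := sub_ne_zero.2 hne
      field_simp
      linear_combination h1
    rw [h2]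
    exact (stab V).mul_mem ((stab V).sub_mem hk' hk) (stab_inv V ((stab V).sub_mem hl hl'))
  subst hll
  have hkk : k = k' := by
    have : k * v0 = k' * v0 := by linear_combination h1
    exact mul_right_cancel₀ hv0' this
  subst hkk
  rfl

lemma clique_le (V : Submodule F K) (hV : V ≠ ⊥) {b : K} (hb : b ≠ 0)
    (h : ∀ (α : K) (S : Subfield K), (S : Set K) ≠ (fun v => α * v) '' (V : Set K))
    (C : Finset K) (hC : (formGraph b V).IsClique (C : Set K)) :
    2 ≤ Module.finrank F V ∧ C.card ≤ Nat.card F ^ (Module.finrank F V - 1) + 4 := by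
  classical
  have : Fintype F := Fintype.ofFinite F
  have : Fintype K := Fintype.ofFinite K
  set q := Nat.card F with hq
  set d := Module.finrank F V with hd
  have hq2 : 2 ≤ q := Finite.one_lt_card
  have hcardS : ∀ S : Submodule F K, Nat.card S = q ^ Module.finrank F S := fun S => by
    rw [hq]; exact Module.natCard_eq_pow_finrank
  have hstab := stab_sq_le V hV h
  rw [hcardS V] at hstab
  -- `F` embeds into the stabiliser
  have hqs : q ≤ Nat.card (stab V) := by
    refine Nat.card_le_card_of_injective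
      (fun a : F => (⟨algebraMap F K a, fun v hv => by
        rw [← Algebra.smul_def]; exact V.smul_mem a hv⟩ : stab V)) ?_
    intro x y hxy
    exact (algebraMap F K).injective (congrArg Subtype.val hxy)
  have hd2 : 2 ≤ d := by
    have h1 : q * q ≤ q ^ d := le_trans (Nat.mul_le_mul hqs hqs) hstab
    rw [← pow_two] at h1
    exact (Nat.pow_le_pow_iff_right (by omega)).1 h1
  refine ⟨hd2, ?_⟩
  by_contra hlt
  push Not at hlt
  -- all the subspaces attached to differences agree
  have hW : ∀ x ∈ C, ∀ x' ∈ C, ∀ z ∈ C, ∀ z' ∈ C, x ≠ x' → z ≠ z' →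
      pull V (b * (x - x')) = pull V (b * (z - z')) := by
    intro x hx x' hx' z hz z' hz' hxx hzz
    set W1 := pull V (b * (x - x')) with hW1
    set W2 := pull V (b * (z - z')) with hW2
    have hr1 : Module.finrank F W1 = d := finrank_pull V (mul_ne_zero hb (sub_ne_zero.2 hxx))
    have hr2 : Module.finrank F W2 = d := finrank_pull V (mul_ne_zero hb (sub_ne_zero.2 hzz))
    by_contra hne
    have hlt1 : W1 ⊓ W2 < W1 := by
      refine lt_of_le_of_ne inf_le_left fun heq => hne ?_
      have hle : W1 ≤ W2 := by rw [← heq]; exact inf_le_right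
      exact Submodule.eq_of_le_of_finrank_eq hle (by rw [hr1, hr2])
    have hrk : Module.finrank F (W1 ⊓ W2 : Submodule F K) ≤ d - 1 := by
      have := Submodule.finrank_lt_finrank_of_lt hlt1
      omega
    set C' := C \ {x, x', z, z'} with hC'
    have hcard' : C.card ≤ C'.card + 4 := by
      have h1 : C.card - ({x, x', z, z'} : Finset K).card ≤ C'.card := Finset.le_card_sdiff _ _
      have h2 : ({x, x', z, z'} : Finset K).card ≤ 4 := Finset.card_le_four
      omega
    have hC'pos : 0 < C'.card := by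
      have : 0 < q ^ (d - 1) := Nat.pow_pos (by omega)
      omega
    obtain ⟨y0, hy0⟩ := Finset.card_pos.1 hC'pos
    -- the basic membership
    have hmem : ∀ s ∈ C, ∀ s' ∈ C, ∀ y ∈ C, s ≠ s' → y ≠ s → y ≠ s' →
        (s - s') * (s + s' + b * y) ∈ V := by
      intro s hs s' hs' y hy hss hys hys'
      have h1 : s ^ 2 + b * s * y + y ^ 2 ∈ V := (hC hs hy (Ne.symm hys)).2
      have h2 : s' ^ 2 + b * s' * y + y ^ 2 ∈ V := (hC hs' hy (Ne.symm hys')).2
      have h3 := V.sub_mem h1 h2
      have e : (s - s') * (s + s' + b * y) =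
          s ^ 2 + b * s * y + y ^ 2 - (s' ^ 2 + b * s' * y + y ^ 2) := by ring
      rw [e]; exact h3
    have hdiff : ∀ s ∈ C, ∀ s' ∈ C, s ≠ s' → ∀ y ∈ C, ∀ y' ∈ C, y ≠ s → y ≠ s' → y' ≠ s →
        y' ≠ s' → y - y' ∈ pull V (b * (s - s')) := by
      intro s hs s' hs' hss y hy y' hy' h1 h2 h3 h4
      rw [mem_pull]
      have h5 := V.sub_mem (hmem s hs s' hs' y hy hss h1 h2) (hmem s hs s' hs' y' hy' hss h3 h4)
      have e : b * (s - s') * (y - y') =
          (s - s') * (s + s' + b * y) - (s - s') * (s + s' + b * y') := by ring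
      rw [e]; exact h5
    have hC'mem : ∀ y ∈ C', y ∈ C ∧ y ≠ x ∧ y ≠ x' ∧ y ≠ z ∧ y ≠ z' := by
      intro y hy
      rw [hC', Finset.mem_sdiff] at hy
      simpa using hy
    have hsub : ∀ y ∈ C', y - y0 ∈ (W1 ⊓ W2 : Submodule F K) := by
      intro y hy
      obtain ⟨a1, a2, a3, a4, a5⟩ := hC'mem y hy
      obtain ⟨b1, b2, b3, b4, b5⟩ := hC'mem y0 hy0
      exact ⟨hdiff x hx x' hx' hxx y a1 y0 b1 a2 a3 b2 b3,
        hdiff z hz z' hz' hzz y a1 y0 b1 a4 a5 b4 b5⟩
    have hC'le : C'.card ≤ q ^ (d - 1) := by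
      have h1 : C'.card ≤ Nat.card (W1 ⊓ W2 : Submodule F K) := by
        rw [← Fintype.card_coe C', ← Nat.card_eq_fintype_card]
        refine Nat.card_le_card_of_injective
          (fun y : C' => (⟨y.1 - y0, hsub y.1 y.2⟩ : (W1 ⊓ W2 : Submodule F K))) ?_
        intro y y' hyy
        exact Subtype.ext (sub_left_injective (congrArg Subtype.val hyy))
      refine h1.trans ?_
      rw [hcardS]
      exact Nat.pow_le_pow_right (by omega) hrk
    omega
  -- hence all quotients of differences stabilise `V`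
  have hone : 1 < C.card := by
    have : 0 < q ^ (d - 1) := Nat.pow_pos (by omega)
    omega
  obtain ⟨x0, hx0, x1, hx1, hne01⟩ := Finset.one_lt_card.1 hone
  have hδ : x1 - x0 ≠ 0 := sub_ne_zero.2 (Ne.symm hne01)
  have hst : ∀ x ∈ C, (x - x0) * (x1 - x0)⁻¹ ∈ stab V := by
    intro x hx
    rcases eq_or_ne x x0 with rfl | hxx
    · rw [sub_self, zero_mul]; exact (stab V).zero_mem
    intro v hv
    have h1 : (b * (x1 - x0))⁻¹ * v ∈ pull V (b * (x1 - x0)) := by
      rw [mem_pull, ← mul_assoc, mul_inv_cancel₀ (mul_ne_zero hb hδ), one_mul]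
      exact hv
    rw [hW x1 hx1 x0 hx0 x hx x0 hx0 (Ne.symm hne01) hxx, mem_pull] at h1
    have e : (x - x0) * (x1 - x0)⁻¹ * v = b * (x - x0) * ((b * (x1 - x0))⁻¹ * v) := by
      rw [mul_inv]
      field_simp
    rw [e]
    exact h1
  have hcard : C.card ≤ Nat.card (stab V) := by
    rw [← Fintype.card_coe C, ← Nat.card_eq_fintype_card]
    refine Nat.card_le_card_of_injective
      (fun x : C => (⟨(x.1 - x0) * (x1 - x0)⁻¹, hst x.1 x.2⟩ : stab V)) ?_
    intro x y hxy
    have h1 : (x.1 - x0) * (x1 - x0)⁻¹ = (y.1 - x0) * (x1 - x0)⁻¹ := congrArg Subtype.val hxy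
    have h2 := mul_right_cancel₀ (inv_ne_zero hδ) h1
    exact Subtype.ext (sub_left_injective h2)
  have h3 : C.card * C.card ≤ q ^ d := (Nat.mul_le_mul hcard hcard).trans hstab
  have h4 : q ^ (d - 1) * q ^ (d - 1) < C.card * C.card :=
    Nat.mul_lt_mul'' (by omega) (by omega)
  have h5 : q ^ d ≤ q ^ (d - 1) * q ^ (d - 1) := by
    rw [← pow_add]
    exact Nat.pow_le_pow_right (by omega) (by omega)
  omega

end aux

/-- Let `F` be a finite field with `q` elements, `K` a finite field extension of `F`, `b ≠ 0` in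
`K`, and `V` a nonzero `F`-subspace of `K` such that no `αV` is a subfield of `K`. Then the clique
number of `Γ(Q_b, V)` is at most `(1/q + 4/q²) · #V`. -/
theorem result (F K : Type) [Field F] [Finite F] [Field K] [Finite K] [Algebra F K]
    (V : Submodule F K) (hV : V ≠ ⊥)
    (hsub : ∀ (α : K) (S : Subfield K), (S : Set K) ≠ (fun v => α * v) '' (V : Set K))
    (b : K) (hb : b ≠ 0) :
    ((formGraph b V).cliqueNum : ℝ) ≤
      (1 / (Nat.card F : ℝ) + 4 / (Nat.card F : ℝ) ^ 2) * (Nat.card V : ℝ) := by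
  classical
  haveI : Fintype K := Fintype.ofFinite K
  obtain ⟨C, hC⟩ := (formGraph b V).exists_isNClique_cliqueNum
  obtain ⟨hd, hle⟩ := clique_le V hV hb hsub C hC.isClique
  have hq2 : 2 ≤ Nat.card F := Finite.one_lt_card
  have hVcard : Nat.card V = Nat.card F ^ Module.finrank F V := Module.natCard_eq_pow_finrank
  obtain ⟨m, hm⟩ : ∃ m, Module.finrank F V = m + 2 := ⟨Module.finrank F V - 2, by omega⟩
  rw [hC.card_eq, hm] at hle
  rw [hVcard, hm]
  have hle' : ((formGraph b V).cliqueNum : ℝ) ≤ (Nat.card F : ℝ) ^ (m + 1) + 4 := by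
    have : (formGraph b V).cliqueNum ≤ Nat.card F ^ (m + 1) + 4 := hle
    exact_mod_cast this
  refine hle'.trans ?_
  have hqpos : (0 : ℝ) < (Nat.card F : ℝ) := by exact_mod_cast (by omega : 0 < Nat.card F)
  have hq1 : (1 : ℝ) ≤ (Nat.card F : ℝ) := by exact_mod_cast (by omega : 1 ≤ Nat.card F)
  push_cast
  have e : (1 / (Nat.card F : ℝ) + 4 / (Nat.card F : ℝ) ^ 2) * (Nat.card F : ℝ) ^ (m + 2) =
      (Nat.card F : ℝ) ^ (m + 1) + 4 * (Nat.card F : ℝ) ^ m := by
    field_simp
    ring
  rw [e]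
  have : (1 : ℝ) ≤ (Nat.card F : ℝ) ^ m := one_le_pow₀ hq1
  linarith

end Pool.Agent.Results.MP_e8cc41_co.CliqueBound
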